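import Pool.Agent.Helper73.HU.Defs
import Pool.Agent.Helper73.HM.St

/-! # HU: the statements of the modules -/

namespace Pool.Agent.Helper73.HU

open Ordinal Cardinal ZFSet Order Pool.Agent.Helper73.HODC Pool.Agent.Helper73.HE
open Pool.Agent.Helper73.HM

/-! ### normal maps, transfer of stationary sets -/

/-- NM: a limit ordinal is the limit of a continuous sequence whose length is the cofinality -/
def StNMap : Prop := ∀ τ : Ordinal.{0}, IsSuccLimit τ →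
  ∃ h : Ordinal.{0} → Ordinal.{0}, Order.IsNormal h ∧ h τ.cof.ord = τ

/-- TR: stationary sets correspond under a normal map -/
def StTR : Prop := ∀ h : Ordinal.{0} → Ordinal.{0}, Order.IsNormal h →
  ∀ μ : Ordinal.{0}, ℵ₀ < μ.cof → ∀ S, Stat S (h μ) ↔ Stat {i | h i ∈ S} μ

/-- RF: simultaneous reflection below ordinals of cofinality at least `κ` -/
def StRF : Prop := ∀ (κ : Cardinal.{0}) (τ : Ordinal.{0}), StronglyCompact κ → κ ≤ τ.cof →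
  ∀ (ι : Type), Cardinal.mk ι < κ → ∀ A : ι → Set Ordinal.{0}, (∀ i, Stat (A i) τ) →
    (∀ i, ∀ a ∈ A i, a.cof < κ) →
    Stat {σ | ℵ₀ < σ.cof ∧ σ.cof < κ ∧ ∀ i, Stat (A i) σ} τ

/-- FO: regressive functions are bounded on a stationary set -/
def StFO : Prop := ∀ (τ : Ordinal.{0}) (S : Set Ordinal.{0}) (r : Ordinal.{0} → Ordinal.{0}),
  ℵ₀ < τ.cof → Stat S τ → (∀ a ∈ S, a < τ → a ≠ 0 → r a < a) →
    ∃ η < τ, Stat {a | a ∈ S ∧ r a ≤ η} τ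

/-- PG: pigeonhole principle -/
def StPG : Prop := ∀ (τ : Ordinal.{0}) (Y : Type) (S : Set Ordinal.{0}) (g : Ordinal.{0} → Y),
  ℵ₀ < τ.cof → Cardinal.mk Y < τ.cof → Stat S τ → ∃ y, Stat {a | a ∈ S ∧ g a = y} τ

/-! ### atoms -/

/-- CV for ordinals -/
def StCVO : Prop := ∀ (κ : Cardinal.{0}) (τ : Ordinal.{0}), StronglyCompact κ → κ ≤ τ.cof →
  ∀ (α ν : Ordinal.{0}), IsSuccLimit α → κ.ord ≤ α → α.cof < κ → α ≤ ν →
  ∀ S : Ordinal.{0} → Set Ordinal.{0}, ODRel (fun ξ a => ξ < ν ∧ a < τ ∧ a ∈ S ξ) →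
    (∀ ξ < ν, Stat (S ξ) τ) → (∀ ξ < ν, ∀ a ∈ S ξ, a.cof < κ) →
    (∀ ξ < ν, ∀ η < ν, ∀ a, a ∈ S ξ → a ∈ S η → ξ = η) → HODSing α

/-- NS for ordinals -/
def StNSO : Prop := ∀ (κ₀ : Cardinal.{0}) (τ : Ordinal.{0}) (X : Set Ordinal.{0}), ℵ₀ < τ.cof →
  DPs X → NoSeqO κ₀ τ X → ∀ α, α ∉ HM.Nd τ X α κ₀.ord

/-- NA for ordinals: existence of atoms -/
def StNAO : Prop := ∀ (κ₀ : Cardinal.{0}) (τ : Ordinal.{0}) (X : Set Ordinal.{0}), ℵ₀ < τ.cof →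
  (2 : Cardinal.{0}) ^ κ₀ < τ.cof → DPs X → Stat X τ → NoSeqO κ₀ τ X →
    ∃ A, DPs A ∧ (∀ a ∈ A, a ∈ X ∧ a < τ) ∧ Atom τ A

/-- UU: the ultrafilter of an atom -/
def StUU : Prop := ∀ (τ : Ordinal.{0}) (A : Set Ordinal.{0}), ℵ₀ < τ.cof → DPs A →
  (∀ a ∈ A, a < τ) → Atom τ A → HODUnif τ τ.cof (UA τ A)

/-- WN: weak normality, for a definable relation `C` such that `{b | C a b}` is unbounded
in `a` -/
def StWN : Prop := ∀ (τ : Ordinal.{0}) (A : Set Ordinal.{0})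
  (C : Ordinal.{0} → Ordinal.{0} → Prop), ℵ₀ < τ.cof → DPs A → (∀ a ∈ A, a < τ) → Atom τ A →
    DP (fun v => C (v 0).rank (v 1).rank) → (∀ a ∈ A, ∀ β < a, ∃ b, C a b ∧ β ≤ b ∧ b < a) →
    ∀ ξ < τ, ∃ η < τ, ¬ Stat {a | a ∈ A ∧ ¬ ∃ b, C a b ∧ ξ ≤ b ∧ b ≤ η} τ

/-! ### regular cardinals of HOD -/

/-- EB: a definable unbounded subset of a regular cardinal of HOD has order type `τ` -/
def StEB : Prop := ∀ (τ : Ordinal.{0}) (Γ : Set Ordinal.{0}), HODReg τ → DPs Γ →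
  (∀ β < τ, ∃ b ∈ Γ, β < b ∧ b < τ) → ∀ i < τ, ∃ b < τ, Enum Γ i b

/-- BD: a definable subset of a regular cardinal of HOD of smaller order type is bounded -/
def StBD : Prop := ∀ (τ : Ordinal.{0}) (S : Set Ordinal.{0}), HODReg τ → DPs S →
  (∀ a ∈ S, a < τ) → OtpLt S τ → ∃ s < τ, ∀ a ∈ S, a ≤ s

/-- EX: small cofinal subsets -/
def StEX : Prop := ∀ τ τ' a : Ordinal.{0}, HODReg τ → HODNext τ τ' → IsSuccLimit a → a < τ' →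
  a.cof ≠ τ.cof → ∃ x, OD x ∧ x ⊆ τ'.toZFSet ∧ SmallCof τ a x

/-- SD: the canonical choice of a small cofinal subset is definable -/
def StSD : Prop := ∀ τ τ' : Ordinal.{0},
  DP (fun v => ∃ x, LeastOD τ' (SmallCof τ (v 0).rank) x ∧ (v 1).rank ∈ st x)

/-- PF: image of an ultrafilter -/
def StPF : Prop := ∀ (τ τ' : Ordinal.{0}) (ρ : Cardinal.{0}) (U : ZFSet.{0})
  (φ : Ordinal.{0} → Ordinal.{0}), HODUnif τ' ρ U → ℵ₀ ≤ ρ → IsSuccLimit τ →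
    DP (fun v => φ (v 0).rank = (v 1).rank) →
    ordSet τ' {a | φ a < τ} ∈ U → (∀ i < τ, ordSet τ' {a | i ≤ φ a} ∈ U) →
    ∃ W, HODUnif τ ρ W

/-- ME: the main step; `C a b` says that `b` is in the chosen small cofinal subset of `a` -/
def StME : Prop := ∀ (τ τ' : Ordinal.{0}) (A : Set Ordinal.{0})
  (C : Ordinal.{0} → Ordinal.{0} → Prop), ℵ₀ < τ'.cof → HODReg τ → HODReg τ' → τ < τ' →
    DPs A → (∀ a ∈ A, a < τ') → Atom τ' A →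
    DP (fun v => C (v 0).rank (v 1).rank) → (∀ a ∈ A, ∀ β < a, ∃ b, C a b ∧ β ≤ b ∧ b < a) →
    (∀ a ∈ A, OtpLt {b | C a b} τ) →
    ∃ φ : Ordinal.{0} → Ordinal.{0}, DP (fun v => φ (v 0).rank = (v 1).rank) ∧
      (∀ a ∈ A, φ a < τ) ∧ ∀ i < τ, ¬ Stat {a | a ∈ A ∧ ¬ i ≤ φ a} τ'

/-! ### the theorem -/

/-- parts (1) and (2), local form -/
def StLocal : Prop := ∀ (κ κ₀ : Cardinal.{0}), StronglyCompact κ → κ ≤ κ₀ →
  (∃ α : Ordinal.{0}, IsSuccLimit α ∧ κ.ord ≤ α ∧ α ≤ κ₀.ord ∧ α.cof < κ ∧ ¬ HODSing α) →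
  (∀ τ, (2 : Cardinal.{0}) ^ κ₀ < τ.cof → ∃ U, HODUnif τ τ.cof U) ∧
  (∀ τ τ', HODReg τ → HODNext τ τ' → (2 : Cardinal.{0}) ^ κ₀ < τ'.cof →
    ∃ U, HODUnif τ τ'.cof U)

/-- the theorem -/
def StMain : Prop := ∀ κ : Cardinal.{0}, StronglyCompact κ → ¬ HODHypothesis →
  ∃ θ : Cardinal.{0},
    (∀ τ, HODReg τ → θ < τ.cof → ∃ U, HODUnif τ τ.cof U) ∧
    (∀ τ τ', HODReg τ → HODNext τ τ' → θ < τ'.cof → ∃ U, HODUnif τ τ'.cof U) ∧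
    ∀ γ δ : Cardinal.{0}, γ.IsRegular → δ.IsRegular → θ < γ → γ ≤ δ →
      (∃ τ, δ.ord < τ ∧ τ < (succ δ).ord ∧ HODSucc τ ∧ τ.cof < γ) ∨
      (∀ τ, δ.ord ≤ τ → τ < (succ δ).ord → HODReg τ → ∃ U, HODUnif τ γ U)

end Pool.Agent.Helper73.HU
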