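import Pool.Agent.Helper73.HU.St

/-! # HU modules CVO, PG: covering and the pigeonhole principle for ordinals -/

namespace Pool.Agent.Helper73.HU

open Ordinal Cardinal ZFSet Order Pool.Agent.Helper73.HODC Pool.Agent.Helper73.HE
open Pool.Agent.Helper73.HM

theorem pg : StPG := by
  intro τ Y S g hτ hY h
  by_contra hcon
  push Not at hcon
  have h1 : ∀ y, ∃ C, Club C τ ∧ ∀ a ∈ C, a < τ → a ∈ S → g a ≠ y := by
    intro y
    have h2 := hcon y
    unfold Stat at h2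
    push Not at h2
    obtain ⟨C, hC, h3⟩ := h2
    exact ⟨C, hC, fun a haC hac haS hay => absurd hac (not_lt.2 (h3 a ⟨haS, hay⟩ haC))⟩
  choose C hC using h1
  have hclub : Club (⋂ y, C y) τ := Club.iInter' hτ hY fun y => (hC y).1
  obtain ⟨a, haS, haC, hac⟩ := h _ hclub
  exact (hC (g a)).2 a (Set.mem_iInter.1 haC _) hac haS rfl

/-- a cofinal family indexed by a small type -/
theorem cv_cofinal (α : Ordinal.{0}) : ∃ (ι : Type) (z : ι → Ordinal.{0}), #ι = α.cof ∧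
    (∀ i, z i < α) ∧ ∀ β < α, ∃ i, β ≤ z i := by
  obtain ⟨S, hS, hS'⟩ := Order.exists_cof_eq α.ToType
  rw [cof_toType] at hS'
  refine ⟨S, fun i => (ToType.mk.symm i.1).1, hS', fun i => (ToType.mk.symm i.1).2, ?_⟩
  intro β hβ
  obtain ⟨s, hs, hs'⟩ := hS (ToType.mk ⟨β, hβ⟩)
  refine ⟨⟨s, hs⟩, ?_⟩
  have h : ToType.mk.symm (ToType.mk ⟨β, hβ⟩) ≤ ToType.mk.symm s :=
    ToType.mk.symm.monotone hs'
  rw [OrderIso.symm_apply_apply] at h
  exact h

theorem cvo (h1 : StRF) (h2 : StDJ) : StCVO := by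
  intro κ τ hκ hκc α ν hα hκα hαcof hαν S hS hstat hcof hdisj
  obtain ⟨ι, z, hι, hz, hz'⟩ := cv_cofinal α
  have hccof : ℵ₀ < τ.cof := hκ.unc.trans_le hκc
  have hrefl := h1 κ τ hκ hκc ι (by rw [hι]; exact hαcof) (fun i => S (z i))
    (fun i => hstat _ ((hz i).trans_le hαν)) (fun i => hcof _ ((hz i).trans_le hαν))
  obtain ⟨σ, ⟨hσ1, hσ2, hσ3⟩, -, hσc⟩ := hrefl _ (club_univ (isSuccLimit_of_cof hccof))
  set Y : Set Ordinal.{0} := {ξ | ξ < α ∧ Stat (S ξ) σ} with hY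
  have hYcard : Cardinal.mk Y ≤ Cardinal.lift.{1} σ.cof :=
    h2 σ Y S hσ1 (fun ξ hξ => hξ.2) (fun ξ hξ η hη a => hdisj ξ (hξ.1.trans_le hαν) η
      (hη.1.trans_le hαν) a)
  have hω : (1 : Ordinal.{0}) < α := by
    have : ω ≤ κ.ord := by
      rw [← ord_aleph0]; exact ord_le_ord.2 hκ.unc.le
    exact one_lt_omega0.trans_le (this.trans hκα)
  refine hodSing_of_rel (ρ := 1) (κ := κ) (E := fun _ η => η ∈ Y) hα ?_ hω hκα ?_ ?_
  · rw [odRel_iff_DP] at hS ⊢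
    have hd : DP (fun v => (v 0).rank ∈ Y) := by
      have h3 : DP (fun v => Stat {a | (v 0).rank < ν ∧ a < τ ∧ a ∈ S (v 0).rank} σ) := by
        refine DP.statC (Q := fun a v => (v 0).rank < ν ∧ a < τ ∧ a ∈ S (v 0).rank) ?_ σ
        exact hS.rename (fun n => if n = 0 then 1 else 0)
      refine ((DP.rank_lt_ord 0 α).and h3).congr fun v => ?_
      constructor
      · rintro ⟨h4, h5⟩
        exact ⟨h4, h5.mono fun a ha haσ => ⟨h4.trans_le hαν, haσ.trans hσc, ha⟩⟩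
      · rintro ⟨h4, h5⟩
        exact ⟨h4, h5.mono fun a ha _ => ha.2.2⟩
    exact hd.rename (fun _ => 1)
  · intro ξ _
    refine lt_of_le_of_lt ?_ (Cardinal.lift_lt.2 hσ2)
    exact hYcard
  · intro β hβ
    refine ⟨0, zero_lt_one, ?_⟩
    obtain ⟨i, hi⟩ := hz' (succ β) (hα.succ_lt hβ)
    exact ⟨z i, hz i, (lt_succ β).trans_le hi, hz i, hσ3 i⟩

end Pool.Agent.Helper73.HU
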