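import Pool.Agent.Helper73.HU.St
import Pool.Agent.Helper73.HM.Fin

/-! # HU: assembly -/

namespace Pool.Agent.Helper73.HU

open Ordinal Cardinal ZFSet Order Pool.Agent.Helper73.HODC Pool.Agent.Helper73.HE
open Pool.Agent.Helper73.HM

theorem exists_atom (hCV : StCVO) (hNA : StNAO) {κ κ₀ : Cardinal.{0}} (hκ : StronglyCompact κ)
    (hkk : κ ≤ κ₀)
    (hα : ∃ α : Ordinal.{0}, IsSuccLimit α ∧ κ.ord ≤ α ∧ α ≤ κ₀.ord ∧ α.cof < κ ∧ ¬ HODSing α)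
    {τ : Ordinal.{0}} (hτ : (2 : Cardinal.{0}) ^ κ₀ < τ.cof) {X : Set Ordinal.{0}} (hX : DPs X)
    (hX' : Stat X τ) (hXc : ∀ a ∈ X, a.cof < κ) :
    ∃ A, DPs A ∧ (∀ a ∈ A, a ∈ X ∧ a < τ) ∧ Atom τ A := by
  obtain ⟨α, hα, h3, h4, h5, h6⟩ := hα
  have hlt : κ₀ < τ.cof := (Cardinal.cantor κ₀).trans hτ
  have hkc : κ ≤ τ.cof := hkk.trans hlt.le
  have hunc : ℵ₀ < τ.cof := lt_of_lt_of_le hκ.unc hkc
  refine hNA κ₀ τ X hunc hτ hX hX' ?_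
  rintro ⟨S, hS1, hS2, hS3, hS4⟩
  exact h6 (hCV κ τ hκ hkc α κ₀.ord hα h3 h5 h4 S hS1 hS2
    (fun ξ hξ a ha => hXc a (hS3 ξ hξ a ha)) hS4)

theorem dps_cof_omega : DPs {a | a.cof = ℵ₀} := DP.of (dfn_cof_omega 0)

theorem dps_cof_mid (hCF : StCF) (κ : Cardinal.{0}) : DPs {a | ℵ₀ < a.cof ∧ a.cof < κ} := by
  have h1 : DPs {a | a.cof < succ (ℵ₀ : Cardinal.{0})} := hCF (succ ℵ₀) 0
  refine ((DP.not h1).and (hCF κ 0)).congr fun v => ?_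
  refine and_congr_left fun _ => ?_
  show ℵ₀ < (v 0).rank.cof ↔ ¬ (v 0).rank.cof < succ (ℵ₀ : Cardinal.{0})
  rw [Order.lt_succ_iff, not_le]

theorem local_of (hCV : StCVO) (hNA : StNAO) (hRF : StRF) (hUU : StUU) (hEX : StEX)
    (hSD : StSD) (hPF : StPF) (hME : StME) (hLE : StLE) (hCF : StCF) : StLocal := by
  intro κ κ₀ hκ hkk hα
  constructor
  · intro τ hτ
    have hunc : ℵ₀ < τ.cof := hκ.unc.trans_le (hkk.trans ((Cardinal.cantor κ₀).trans hτ).le)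
    obtain ⟨A, hA, hA1, hA2⟩ := exists_atom hCV hNA hκ hkk hα hτ dps_cof_omega
      (stat_cof_omega hunc) (fun a ha => by rw [Set.mem_ofPred_eq] at ha; rw [ha]; exact hκ.unc)
    exact ⟨_, hUU τ A hunc hA (fun a ha => (hA1 a ha).2) hA2⟩
  · intro τ τ' hτr hτ' hcof
    have hkc : κ ≤ τ'.cof := hkk.trans ((Cardinal.cantor κ₀).trans hcof).le
    have hunc : ℵ₀ < τ'.cof := hκ.unc.trans_le hkc
    have hatom : ∃ A, DPs A ∧ (∀ a ∈ A, (ℵ₀ ≤ a.cof ∧ a.cof ≠ τ.cof) ∧ a < τ') ∧ Atom τ' A := by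
      by_cases hc : τ.cof = ℵ₀
      · have hs : Stat {a | ℵ₀ < a.cof ∧ a.cof < κ} τ' := by
          refine (hRF κ τ' hκ hkc Unit (by simpa using Cardinal.one_lt_aleph0.trans hκ.unc)
            (fun _ => {a | a.cof = ℵ₀}) (fun _ => stat_cof_omega hunc) (fun _ a ha => by
              rw [Set.mem_ofPred_eq] at ha; rw [ha]; exact hκ.unc)).mono fun a ha _ =>
                ⟨ha.1, ha.2.1⟩
        obtain ⟨A, hA, hA1, hA2⟩ := exists_atom hCV hNA hκ hkk hα hcof (dps_cof_mid hCF κ) hs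
          (fun a ha => ha.2)
        refine ⟨A, hA, fun a ha => ⟨⟨(hA1 a ha).1.1.le, ?_⟩, (hA1 a ha).2⟩, hA2⟩
        rw [hc]
        exact (hA1 a ha).1.1.ne'
      · obtain ⟨A, hA, hA1, hA2⟩ := exists_atom hCV hNA hκ hkk hα hcof dps_cof_omega
          (stat_cof_omega hunc) (fun a ha => by rw [Set.mem_ofPred_eq] at ha; rw [ha]; exact hκ.unc)
        refine ⟨A, hA, fun a ha => ⟨⟨?_, ?_⟩, (hA1 a ha).2⟩, hA2⟩
        · exact le_of_eq (hA1 a ha).1.symm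
        · have h1 : a.cof = ℵ₀ := (hA1 a ha).1
          rw [h1]
          exact fun h => hc h.symm
    obtain ⟨A, hA, hA1, hA2⟩ := hatom
    have hA3 : ∀ a ∈ A, a < τ' := fun a ha => (hA1 a ha).2
    let C : Ordinal.{0} → Ordinal.{0} → Prop := fun a b =>
      ∃ x, LeastOD τ' (SmallCof τ a) x ∧ b ∈ st x
    have hC : DP (fun v => C (v 0).rank (v 1).rank) := hSD τ τ'
    have hx : ∀ a ∈ A, ∃ x, LeastOD τ' (SmallCof τ a) x := by
      intro a ha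
      refine hLE.2 τ' _ (hEX τ τ' a hτr hτ' ?_ (hA3 a ha) (hA1 a ha).1.2)
      exact Ordinal.one_lt_cof_iff.1 (Cardinal.one_lt_aleph0.trans_le (hA1 a ha).1.1)
    have hCx : ∀ a ∈ A, ∃ x, SmallCof τ a x ∧ ∀ b, C a b ↔ b ∈ st x := by
      intro a ha
      obtain ⟨x, hx⟩ := hx a ha
      refine ⟨x, hx.1.2.2, fun b => ⟨?_, fun h => ⟨x, hx, h⟩⟩⟩
      rintro ⟨y, hy, hb⟩
      rwa [hLE.1 _ _ _ _ hy hx] at hb
    obtain ⟨φ, hφ, hφ1, hφ2⟩ := hME τ τ' A C hunc hτr hτ'.2.1 hτ'.1 hA hA3 hA2 hC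
      (fun a ha β hβ => by
        obtain ⟨x, hx, hb⟩ := hCx a ha
        obtain ⟨b, hb1, hb2, hb3⟩ := hx.2.1 β hβ
        exact ⟨b, (hb b).2 hb1, hb2.le, hb3⟩)
      (fun a ha => by
        obtain ⟨x, hx, hb⟩ := hCx a ha
        have : {b | C a b} = st x := Set.ext hb
        rw [this]
        exact hx.2.2)
    have hU := hUU τ' A hunc hA hA3 hA2
    have hmem : ∀ T : Set Ordinal.{0}, DPs T → ¬ Stat {a | a ∈ A ∧ a ∉ T} τ' →
        ordSet τ' T ∈ UA τ' A := by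
      intro T hT h
      rw [UA, ZFSet.mem_sep]
      refine ⟨mem_hodPow.2 ⟨ordSet_sub _ _, od_ordSet hT _⟩, fun h' => h (h'.mono ?_)⟩
      intro a ha hac
      exact ⟨ha.1, fun h1 => ha.2 (mem_st_ordSet.2 ⟨hac, h1⟩)⟩
    have hφd : ∀ x : Ordinal.{0}, DPs {a | φ a < x} := by
      intro x
      refine (DP.exO (Q := fun b v => φ (v 0).rank = b ∧ b < x) ?_).congr fun v => ?_
      · exact (hφ.rename (fun n => if n = 0 then 1 else 0)).and (DP.rank_lt_ord 0 x)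
      · constructor
        · intro h
          exact ⟨_, rfl, h⟩
        · rintro ⟨b, h1, h2⟩
          show φ (v 0).rank < x
          rw [h1]
          exact h2
    refine hPF τ τ' τ'.cof (UA τ' A) φ hU hunc.le hτr.1 hφ ?_ ?_
    · refine hmem _ (hφd τ) fun h => ?_
      obtain ⟨a, ha, -, hac⟩ := h _ (club_univ (isSuccLimit_of_cof hunc))
      exact ha.2 (hφ1 a ha.1)
    · intro i hi
      refine hmem _ ?_ (hφ2 i hi)
      exact (DP.not (hφd i)).congr fun v => (not_lt (a := φ (v 0).rank) (b := i)).symm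

theorem hodReg_of_regular {c : Cardinal.{0}} (hc : c.IsRegular) : HODReg c.ord := by
  have hlim : IsSuccLimit c.ord := Cardinal.isSuccLimit_ord hc.aleph0_le
  refine ⟨hlim, ?_⟩
  rintro ⟨-, ρ, hρ, f, hf, hf', -⟩
  have hlt : (⨆ x : Set.Iio ρ, f x.1) < c.ord := by
    refine Ordinal.lift_iSup_lt_of_lt_cof ?_ ?_
    · rw [Cardinal.mk_Iio_ordinal, ← Ordinal.lift_cof, hc.cof_ord]
      rw [Cardinal.lift_lift, Cardinal.lift_lt]
      exact Cardinal.lt_ord.mp hρ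
    · intro x
      exact hf x.1 x.2
  obtain ⟨ξ, hξ, h⟩ := hf' _ (hlim.succ_lt hlt)
  have h1 := Ordinal.le_iSup (fun x : Set.Iio ρ => f x.1) ⟨ξ, hξ⟩
  exact absurd (h.trans h1) (not_le.2 (Order.lt_succ _))

theorem HODUnif.mono {τ : Ordinal.{0}} {ρ ρ' : Cardinal.{0}} {U : ZFSet.{0}}
    (h : HODUnif τ ρ U) (h' : ρ' ≤ ρ) : HODUnif τ ρ' U :=
  ⟨h.hod, h.sub, h.up, h.ultra, h.tail, fun γ hγ F hF hF' =>
    h.complete γ (hγ.trans_le (Cardinal.ord_le_ord.2 h')) F hF hF'⟩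

theorem not_unif {τ : Ordinal.{0}} {ρ : Cardinal.{0}} {U : ZFSet.{0}} (hτ : IsSuccLimit τ)
    (h : HODUnif τ ρ U) (h' : τ < ρ.ord) : False := by
  have h1 : ordSet τ {a | ∀ ξ < τ, a ∈ {a | ξ ≤ a}} ∈ U := by
    refine h.complete τ h' (fun ξ => {a | ξ ≤ a}) (HOD_seqSet _ _ _ ?_) fun ξ hξ => h.tail ξ hξ
    rw [odRel_iff_DP]
    exact (DP.rank_lt_ord 0 τ).and ((DP.rank_lt_ord 1 τ).and (DP.rank_le 0 1))
  have h2 : ordSet τ {a | ∀ ξ < τ, a ∈ {a | ξ ≤ a}} = ∅ := by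
    rw [ZFSet.eq_empty]
    intro z hz
    obtain ⟨a, ha, ha', -⟩ := (mem_ordSet _ _ _).1 hz
    exact absurd (ha' (succ a) (hτ.succ_lt ha)) (not_le.2 (Order.lt_succ a))
  rw [h2] at h1
  have h3 : τ.toZFSet ∈ hodPow τ := mem_hodPow.2 ⟨fun z hz => hz, HM.HOD.od (HOD_toZFSet τ)⟩
  have h4 := (h.ultra _ (h.sub _ h1)).1 h1
  refine h4 (h.up _ h1 _ ?_ (ZFSet.empty_subset _))
  have h5 : τ.toZFSet \ ∅ = τ.toZFSet := by
    ext z
    rw [ZFSet.mem_sdiff]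
    exact ⟨fun h => h.1, fun h => ⟨h, ZFSet.notMem_empty z⟩⟩
  rw [h5]
  exact h3

theorem main_of (hL : StLocal) (hY : StHY) : StMain := by
  intro κ hκ hH
  have hall : ¬ ∀ α : Ordinal.{0}, IsSuccLimit α → κ.ord ≤ α → α.cof < κ → HODSing α :=
    fun h => hH (hY κ hκ.reg hκ.unc h)
  push Not at hall
  obtain ⟨α, hα, h3, h5, h6⟩ := hall
  set κ₀ : Cardinal.{0} := succ (max κ α.card) with hκ₀
  have h4 : α ≤ κ₀.ord := by
    have h7 : α.card < κ₀ := lt_of_le_of_lt (le_max_right _ _) (Order.lt_succ _)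
    exact (Cardinal.lt_ord.2 h7).le
  have hkk : κ ≤ κ₀ := (le_max_left _ _).trans (Order.le_succ _)
  obtain ⟨hL1, hL2⟩ := hL κ κ₀ hκ hkk ⟨α, hα, h3, h4, h5, h6⟩
  refine ⟨(2 : Cardinal.{0}) ^ κ₀, fun τ _ hτ => hL1 τ hτ, hL2, fun γ δ hγ hδ hθ hγδ => ?_⟩
  by_cases hex : ∃ τ, δ.ord < τ ∧ τ < (succ δ).ord ∧ HODSucc τ ∧ τ.cof < γ
  · exact Or.inl hex
  right
  intro τ hδτ hτδ hτ
  by_cases hc : γ ≤ τ.cof
  · obtain ⟨U, hU⟩ := hL1 τ (hθ.trans_le hc)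
    exact ⟨U, hU.mono hc⟩
  -- the successor of `τ` in HOD
  have hs : HODReg (succ δ).ord := hodReg_of_regular (Cardinal.isRegular_succ hδ.aleph0_le)
  obtain ⟨τ', ⟨h7, h8⟩, hmin⟩ := WellFounded.has_min (wellFounded_lt (α := Ordinal.{0}))
    {ζ | τ < ζ ∧ HODReg ζ} ⟨_, hτδ, hs⟩
  have hnext : HODNext τ τ' := ⟨h7, h8, fun ζ h9 h10 h11 => hmin ζ ⟨h9, h11⟩ h10⟩
  have hle : τ' ≤ (succ δ).ord := not_lt.1 (hmin _ ⟨hτδ, hs⟩)
  rcases hle.lt_or_eq with h9 | h9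
  · have h10 : γ ≤ τ'.cof := by
      by_contra h11
      exact hex ⟨τ', hδτ.trans_lt h7, h9, ⟨τ, hnext⟩, not_le.1 h11⟩
    obtain ⟨U, hU⟩ := hL2 τ τ' hτ hnext (hθ.trans_le h10)
    exact ⟨U, hU.mono h10⟩
  · exfalso
    have h10 : τ'.cof = succ δ := by
      rw [h9, (Cardinal.isRegular_succ hδ.aleph0_le).cof_ord]
    obtain ⟨U, hU⟩ := hL2 τ τ' hτ hnext (by
      rw [h10]; exact hθ.trans (hγδ.trans_lt (Order.lt_succ δ)))
    refine not_unif hτ.1 hU ?_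
    rw [h10]
    exact hτδ

end Pool.Agent.Helper73.HU
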