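import Pool.Agent.Helper73.HM.Defs

/-!
# Uniform ultrafilters in HOD above a strongly compact cardinal.  Definitions
-/

namespace Pool.Agent.Helper73.HU

open Ordinal Cardinal ZFSet Order Pool.Agent.Helper73.HODC Pool.Agent.Helper73.HM

/-! ### The notions of the theorem -/

/-- `τ` is an infinite regular cardinal of HOD: a limit ordinal which is not singular in HOD -/
def HODReg (τ : Ordinal.{0}) : Prop := IsSuccLimit τ ∧ ¬ HODSing τ

/-- `τ'` is the least regular cardinal of HOD above `τ` (it is the successor cardinal of `τ` in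
HOD) -/
def HODNext (τ τ' : Ordinal.{0}) : Prop :=
  τ < τ' ∧ HODReg τ' ∧ ∀ ζ, τ < ζ → ζ < τ' → ¬ HODReg ζ

/-- `τ'` is a regular cardinal of HOD which is not a limit of regular cardinals of HOD; above
`ω` these are the successor cardinals of HOD -/
def HODSucc (τ' : Ordinal.{0}) : Prop := ∃ τ, HODNext τ τ'

/-- `U` is, in HOD, a `ρ`-complete uniform ultrafilter on `τ` -/
structure HODUnif (τ : Ordinal.{0}) (ρ : Cardinal.{0}) (U : ZFSet.{0}) : Prop where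
  hod : HOD U
  sub : ∀ X ∈ U, X ∈ hodPow τ
  up : ∀ X ∈ U, ∀ Y ∈ hodPow τ, X ⊆ Y → Y ∈ U
  ultra : ∀ X ∈ hodPow τ, X ∈ U ↔ τ.toZFSet \ X ∉ U
  tail : ∀ β < τ, ordSet τ {a | β ≤ a} ∈ U
  complete : ∀ γ < ρ.ord, ∀ F : Ordinal.{0} → Set Ordinal.{0}, HOD (seqSet γ τ F) →
    (∀ ξ < γ, ordSet τ (F ξ) ∈ U) → ordSet τ {a | ∀ ξ < γ, a ∈ F ξ} ∈ U

/-! ### Auxiliary definitions -/

/-- the order type of `S` is less than `τ` -/
def OtpLt (S : Set Ordinal.{0}) (τ : Ordinal.{0}) : Prop :=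
  ∃ ζ < τ, ∃ g : Ordinal.{0} → Ordinal.{0}, (∀ a ∈ S, g a < ζ) ∧
    ∀ a ∈ S, ∀ b ∈ S, a < b → g a < g b

/-- `x` is a cofinal subset of `a` of order type less than `τ` -/
def SmallCof (τ a : Ordinal.{0}) (x : ZFSet.{0}) : Prop :=
  (∀ b ∈ st x, b < a) ∧ UnbIn (st x) a ∧ OtpLt (st x) τ

/-- no definable sequence of `κ₀` pairwise disjoint stationary subsets of `X` -/
def NoSeqO (κ₀ : Cardinal.{0}) (τ : Ordinal.{0}) (X : Set Ordinal.{0}) : Prop :=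
  ¬ ∃ S : Ordinal.{0} → Set Ordinal.{0},
    ODRel (fun ξ a => ξ < κ₀.ord ∧ a < τ ∧ a ∈ S ξ) ∧
    (∀ ξ < κ₀.ord, Stat (S ξ) τ) ∧ (∀ ξ < κ₀.ord, ∀ a ∈ S ξ, a ∈ X) ∧
    (∀ ξ < κ₀.ord, ∀ η < κ₀.ord, ∀ a, a ∈ S ξ → a ∈ S η → ξ = η)

end Pool.Agent.Helper73.HU
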