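import Pool.Agent.Helper73.HU.St
import Pool.Agent.Helper73.HM.NE

/-! # HU module NSO: no long branches, for ordinals -/

namespace Pool.Agent.Helper73.HU

open Ordinal Cardinal ZFSet Order Pool.Agent.Helper73.HODC Pool.Agent.Helper73.HE
open Pool.Agent.Helper73.HM

theorem nso (h1 : StLE) (h2 : StNE) (h3 : StND) : StNSO := by
  intro κ₀ τ X hc' hX hno α hα
  obtain ⟨hanti, hsucc, -, -⟩ := h2 τ X
  have hB : ∀ ξ < κ₀.ord, ∃ B, LeastOD τ (HM.Spl τ (HM.Nd τ X α ξ)) B := by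
    intro ξ hξ
    obtain ⟨B, hB, -⟩ := (HM.mem_Nd.1 hα).2.2 ξ hξ
    exact ⟨B, hB⟩
  refine hno ⟨fun ξ => {a | a ∈ HM.Nd τ X α ξ ∧ a ∉ HM.Nd τ X α (ξ + 1)}, ?_, ?_, ?_, ?_⟩
  · rw [odRel_iff_DP]
    have hd : DP (fun v => (v 0).rank ∈ HM.Nd τ X α (v 1).rank) :=
      dp_subst_at (Q := fun x v => (v 0).rank ∈ HM.Nd τ X x (v 1).rank)
        ((h3 τ X hX).rename (fun n => if n = 0 then 1 else if n = 1 then 0 else n)) α
    have hd' : DP (fun v => ∃ s : Ordinal.{0}, ((v 0).rank < s ∧ ∀ t, t < s → ¬ (v 0).rank < t) ∧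
        (v 1).rank ∉ HM.Nd τ X α s) := by
      refine DP.exO (Q := fun s v => ((v 0).rank < s ∧ ∀ t, t < s → ¬ (v 0).rank < t) ∧
        (v 1).rank ∉ HM.Nd τ X α s) ?_
      refine ((DP.rank_lt 1 0).and ?_).and ?_
      · refine DP.allO (Q := fun t v => t < (v 0).rank → ¬ (v 1).rank < t) ?_
        exact (DP.rank_lt 0 1).imp (DP.rank_lt 2 0).not
      · exact (hd.rename (fun n => if n = 0 then 2 else 0)).not
    refine ((DP.rank_lt_ord 0 κ₀.ord).and ((DP.rank_lt_ord 1 τ).and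
      ((hd.rename (fun n => if n = 0 then 1 else 0)).and hd'))).congr fun v => ?_
    refine and_congr_right fun _ => and_congr_right fun _ => and_congr_right fun _ => ?_
    constructor
    · intro h
      exact ⟨(v 0).rank + 1, ⟨lt_add_one _, fun t ht => not_lt.2 (lt_add_one_iff.1 ht)⟩, h⟩
    · rintro ⟨s, ⟨h4, h5⟩, h6⟩
      have : s = (v 0).rank + 1 := by
        refine le_antisymm ?_ (add_one_le_iff.2 h4)
        by_contra h7
        exact h5 _ (not_le.1 h7) (lt_add_one _)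
      rw [← this]
      exact h6
  · intro ξ hξ
    obtain ⟨B, hB⟩ := hB ξ hξ
    have key : ∀ a, a ∈ HM.Nd τ X α (ξ + 1) → (α ∈ st B ↔ a ∈ st B) := by
      intro a ha
      obtain ⟨-, B', hB', h⟩ := (hsucc α ξ a).1 ha
      rwa [h1.1 _ _ _ _ hB' hB] at h
    by_cases hp : α ∈ st B
    · refine hB.1.2.2.2.mono fun a ha _ => ⟨ha.1, fun h => ?_⟩
      exact ha.2 ((key a h).1 hp)
    · refine hB.1.2.2.1.mono fun a ha _ => ⟨ha.1, fun h => ?_⟩
      exact hp ((key a h).2 ha.2)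
  · intro ξ _ a ha
    exact (HM.mem_Nd.1 ha.1).1
  · rintro ξ - η - a ⟨h4, h5⟩ ⟨h6, h7⟩
    rcases lt_trichotomy ξ η with h | h | h
    · exact absurd (hanti α _ _ (add_one_le_iff.2 h) h6) h5
    · exact h
    · exact absurd (hanti α _ _ (add_one_le_iff.2 h) h4) h7

end Pool.Agent.Helper73.HU
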