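import Pool.Agent.Helper73.HU.Fin
import Pool.Agent.Helper73.HU.CVO
import Pool.Agent.Helper73.HU.NSO
import Pool.Agent.Helper73.HU.NAO
import Pool.Agent.Helper73.HM.Top
import Pool.Agent.Helper68.HU.NMap
import Pool.Agent.Helper68.HU.TR
import Pool.Agent.Helper68.HU.RF
import Pool.Agent.Helper68.HU.FO
import Pool.Agent.Helper48.HU.UU
import Pool.Agent.Helper62.HU.WN
import Pool.Agent.Helper31.HU.EB
import Pool.Agent.Helper8.HU.BD
import Pool.Agent.Helper86.HU.EX
import Pool.Agent.Helper86.HU.PF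
import Pool.Agent.Helper86.HU.ME
import Pool.Agent.Helper63.HU.SD

/-! # HU: the theorem, all modules assembled -/

namespace Pool.Agent.Helper73.HU

open Pool.Agent.Helper73.HM

theorem main_local : StLocal := by
  have hRefl : StRefl := refl_of Helper32.HM.ra Helper38.HM.rc Helper11.HM.RS.rs
  have hTC : StTC := Helper77.HM.TC.tc
  have hTS : StTS := Helper12.HM.ts hTC
  have hTD : StTD := td_of hTC hTS
  have hOZ : StOZ := Helper30.HM.oz hTD
  have hHP : StHP := hp_of hTD hOZ
  have hLE : StLE := Helper14.HM.le hTC hOZ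
  have hLS : StLS := Helper62.HM.LS.ls hTD
  have hLD : StLD := ld_of hHP hLS
  have hNE : StNE := ne hLE
  have hND : StND := nd re hLD
  have hUD : StUD := ud_of hHP
  have hRF : StRF := Helper68.HU.rf hRefl Helper68.HU.nmap Helper68.HU.tr
  have hFO : StFO := Helper68.HU.fo Helper68.HU.nmap Helper68.HU.tr
  have hCVO : StCVO := cvo hRF Helper66.HM.dj
  have hNSO : StNSO := nso hLE hNE hND
  have hNAO : StNAO := nao hLE hNE hND hNSO
  have hEB : StEB := Helper31.HU.EB.eb
  exact local_of hCVO hNAO hRF (Helper48.HU.UU.uu hUD) Helper86.HU.EX.ex (Helper63.HU.sd hLD)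
    (Helper86.HU.PF.pf hHP) (Helper86.HU.ME.me (Helper62.HU.WN.wn hFO) hEB (Helper8.HU.bd hEB))
    hLE Helper14.HM.cf

theorem main : StMain := main_of main_local Helper96.HM.hy

end Pool.Agent.Helper73.HU
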